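import Pool.Agent.Helper76.ND.StC

/-! Module Cv of project ND: Pascal recursion and convolution. -/

set_option autoImplicit false

noncomputable section

namespace Pool.Agent.Helper67.ND

open Pool.Agent.Helper76.ND Finset

theorem qs_rec (n s : ℕ) : qs (n + 1) (s + 1) = (qs (n + 1) s + qs n s) / 2 := by
  rcases s with _ | s
  · rcases n with _ | n
    · simp [qs]
    · simp [qs]
  · rcases n with _ | n
    · simp only [qs, Nat.choose_zero_right, Nat.cast_one, add_zero]
      rw [pow_succ (2 : ℝ) (s + 1)]
      field_simp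
    · simp only [qs]
      rw [Nat.choose_succ_succ s n, pow_succ (2 : ℝ) (s + 1)]
      push_cast
      field_simp
      ring

theorem qs_conv (b : ℕ) : ∀ a s : ℕ,
    qs (a + b) s = ∑ s' ∈ range (s + 1), qs a s' * qs b (s - s') := by
  intro a
  induction a with
  | zero =>
    intro s
    rw [Finset.sum_eq_single 0]
    · simp [qs]
    · intro s' _ h
      obtain ⟨k, rfl⟩ : ∃ k, s' = k + 1 := ⟨s' - 1, by omega⟩
      simp [qs]
    · intro h
      simp at h
  | succ a iha =>
    intro s
    have e : a + 1 + b = (a + b) + 1 := by omega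
    induction s with
    | zero =>
      rw [e]
      simp [qs]
    | succ s ihs =>
      rw [e, qs_rec, ← e, ihs, iha, Finset.sum_range_succ' _ (s + 1)]
      have h0 : qs (a + 1) 0 = 0 := by simp [qs]
      rw [h0, zero_mul, add_zero, ← Finset.sum_add_distrib, Finset.sum_div]
      refine Finset.sum_congr rfl fun s' _ => ?_
      rw [qs_rec, Nat.add_sub_add_right]
      ring

theorem hCv : StCv := by
  refine ⟨qs_rec, fun a b s => qs_conv b a s, ?_, ?_⟩
  · intro b hb
    obtain ⟨k, rfl⟩ : ∃ k, b = k + 1 := ⟨b - 1, by omega⟩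
    simp [P3, qs]
  · intro n s h
    obtain ⟨k, rfl⟩ : ∃ k, n = k + 1 := ⟨n - 1, by omega⟩
    rcases s with _ | s
    · simp [qs]
    · simp only [qs]
      rw [Nat.choose_eq_zero_of_lt (by omega)]
      simp

end Pool.Agent.Helper67.ND
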